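import Pool.Agent.Q75.HM.Stm

set_option autoImplicit false

namespace Pool.Agent.Q176.HM

open Complex Set Metric Filter Topology
open Pool.Agent.Q75.HM
open scoped Real ComplexConjugate

/-- the number `qn` at real points, written with the function of `S_PA` -/
lemma e1_key {Ω : Set ℂ} {t δ : ℝ} {φ : ℂ → ℂ} (hQBL : S_QBL) (hD : Dm Ω) (hδ : 0 < δ)
    (ht0 : 0 ≤ t) (ht : t ≤ δ / 16) (hball : ball (t : ℂ) δ ⊆ Ω) (hφ : RM Ω t φ)
    (hc : ∀ z ∈ Ω, φ (conj z) = conj (φ z)) (u : ℝ) (hu : |u| ≤ δ / 16) :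
    qn Ω ((t + u : ℝ) : ℂ) ((2 * u : ℝ) : ℂ) =
      ‖dslope (fun v : ℂ => φ (2 * v) - φ (t + v)) (t : ℂ) (u : ℂ) /
        (1 - φ (t + u) * φ (2 * u))‖ := by
  have hu' := abs_le.1 hu
  have htΩ : (t : ℂ) ∈ Ω := hball (mem_ball_self hδ)
  have hreal : ∀ x : ℝ, |x - t| < δ → ((x : ℝ) : ℂ) ∈ Ω := by
    intro x hx
    refine hball ?_
    rw [mem_ball, Complex.dist_eq, ← Complex.ofReal_sub, Complex.norm_real, Real.norm_eq_abs]
    exact hx
  have hw : ((t + u : ℝ) : ℂ) ∈ Ω := hreal _ (by rw [abs_lt]; constructor <;> linarith)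
  have hz : ((2 * u : ℝ) : ℂ) ∈ Ω := hreal _ (by rw [abs_lt]; constructor <;> linarith)
  have hcw : conj (φ ((t + u : ℝ) : ℂ)) = φ ((t + u : ℝ) : ℂ) := by
    rw [← hc _ hw, Complex.conj_ofReal]
  rw [hQBL Ω t ((t + u : ℝ) : ℂ) ((2 * u : ℝ) : ℂ) φ hD htΩ hw hz hφ, hcw]
  by_cases h : u = t
  · have e2 : ((2 * u : ℝ) : ℂ) = ((t + u : ℝ) : ℂ) := by rw [h]; push_cast; ring
    have e3 : (2 * (u : ℂ)) = ((t + u : ℝ) : ℂ) := by rw [h]; push_cast; ring
    have e4 : ((t : ℂ) + (u : ℂ)) = ((t + u : ℝ) : ℂ) := by push_cast; ring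
    rw [e2, e3, e4]
    set w : ℂ := ((t + u : ℝ) : ℂ) with hwdef
    have hd : HasDerivAt φ (deriv φ w) w :=
      (hφ.1.differentiableAt (hD.1.mem_nhds hw)).hasDerivAt
    have hn : ‖φ w‖ < 1 := by simpa using hφ.2.1.mapsTo hw
    have hne : 1 - φ w * φ w ≠ 0 := by
      intro h0
      have h1 : φ w * φ w = 1 := by linear_combination -h0
      have h2 : ‖φ w‖ * ‖φ w‖ = 1 := by rw [← norm_mul, h1, norm_one]
      nlinarith [norm_nonneg (φ w)]
    have h1 : HasDerivAt (fun x => (φ x - φ w) / (1 - φ w * φ x))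
        ((deriv φ w * (1 - φ w * φ w) - (φ w - φ w) * (-(φ w * deriv φ w))) /
          (1 - φ w * φ w) ^ 2) w :=
      (hd.sub_const (φ w)).div ((hd.const_mul (φ w)).const_sub 1) hne
    have h2 : HasDerivAt (fun v : ℂ => φ (2 * v) - φ (t + v))
        (deriv φ w * 2 - deriv φ w * 1) (t : ℂ) := by
      have a1 : HasDerivAt (fun v : ℂ => 2 * v) (2 : ℂ) (t : ℂ) := by
        simpa using (hasDerivAt_id (t : ℂ)).const_mul (2 : ℂ)
      have a2 : HasDerivAt (fun v : ℂ => (t : ℂ) + v) (1 : ℂ) (t : ℂ) := by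
        simpa using (hasDerivAt_id (t : ℂ)).const_add (t : ℂ)
      have w1 : 2 * (t : ℂ) = w := by rw [hwdef, h]; push_cast; ring
      have w2 : (t : ℂ) + (t : ℂ) = w := by rw [hwdef, h]; push_cast; ring
      have b1 : HasDerivAt φ (deriv φ w) (2 * (t : ℂ)) := by rw [w1]; exact hd
      have b2 : HasDerivAt φ (deriv φ w) ((t : ℂ) + (t : ℂ)) := by rw [w2]; exact hd
      exact (b1.comp (t : ℂ) a1).sub (b2.comp (t : ℂ) a2)
    have e5 : (u : ℂ) = (t : ℂ) := by rw [h]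
    rw [dslope_same, e5, dslope_same, h1.deriv, h2.deriv]
    congr 1
    rw [sub_self, zero_mul, sub_zero, sq, mul_div_mul_right _ _ hne]
    congr 1
    ring
  · have hne : ((2 * u : ℝ) : ℂ) ≠ ((t + u : ℝ) : ℂ) := by
      intro h0
      have := Complex.ofReal_injective h0
      exact h (by linarith)
    have hne2 : (u : ℂ) ≠ (t : ℂ) := fun h0 => h (Complex.ofReal_injective h0)
    rw [dslope_of_ne _ hne, dslope_of_ne _ hne2, slope_def_field, slope_def_field]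
    have e2 : ((2 * u : ℝ) : ℂ) = 2 * (u : ℂ) := by push_cast; ring
    have e4 : ((t + u : ℝ) : ℂ) = (t : ℂ) + (u : ℂ) := by push_cast; ring
    have e5 : 2 * (t : ℂ) = (t : ℂ) + (t : ℂ) := by ring
    have e6 : 2 * (u : ℂ) - ((t : ℂ) + (u : ℂ)) = (u : ℂ) - (t : ℂ) := by ring
    rw [e2, e4, e5, e6]
    congr 1
    rw [sub_self, sub_self, zero_div, sub_zero, sub_zero, div_right_comm]

/-- Job E1. -/
theorem t_E1 : S_QB → S_QBL → S_SYC → S_PA → S_E1 := by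
  intro _ hQBL hSYC hPA Ω t τ δ hD hconj hδ ht0 ht hτ0 hτ hball
  have htΩ : (t : ℂ) ∈ Ω := hball (mem_ball_self hδ)
  obtain ⟨φ, hφ, -, -, hc⟩ := hSYC Ω t hD hconj htΩ
  set N : ℂ → ℂ := fun v : ℂ => φ (2 * v) - φ (t + v) with hN
  set P : ℂ → ℂ := fun u => dslope N t u / (1 - φ (t + u) * φ (2 * u)) with hP
  have hkey : ∀ u : ℝ, |u| ≤ δ / 16 →
      qn Ω ((t + u : ℝ) : ℂ) ((2 * u : ℝ) : ℂ) = ‖P (u : ℂ)‖ :=
    fun u hu => e1_key hQBL hD hδ ht0 ht hball hφ hc u hu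
  have h0 : qn Ω t 0 = ‖P 0‖ := by
    have := hkey 0 (by rw [abs_zero]; positivity)
    simpa using this
  have h1 := hkey τ (by rw [abs_of_pos hτ0]; exact hτ)
  have h2 : qn Ω ((t - τ : ℝ) : ℂ) ((-(2 * τ) : ℝ) : ℂ) = ‖P (-(τ : ℂ))‖ := by
    have := hkey (-τ) (by rw [abs_neg, abs_of_pos hτ0]; exact hτ)
    have e1 : t + -τ = t - τ := by ring
    have e2 : 2 * -τ = -(2 * τ) := by ring
    rw [e1, e2, Complex.ofReal_neg τ] at this
    exact this
  obtain ⟨hA, hB⟩ := hPA φ t τ δ hδ ht0 ht hτ0.le hτ (hφ.1.mono hball)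
    (fun z hz => hφ.2.1.mapsTo (hball hz)) hφ.2.2.2 N P (fun u => rfl) (fun u => rfl)
  rw [h0, h1, h2]
  constructor
  · rw [← norm_mul, ← norm_pow]
    have := norm_add_le (P 0 ^ 2) (P τ * P (-τ) - P 0 ^ 2)
    rw [add_sub_cancel] at this
    linarith
  · have := norm_add_le (P 0) (P τ - P 0)
    rw [add_sub_cancel] at this
    linarith

end Pool.Agent.Q176.HM
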