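import Pool.Agent.Q76.HM.Stm

/-! # Project HM (helper76), JOB PLA: Plancherel bounds and density -/

set_option autoImplicit false

namespace Pool.Agent.Q176.HM

open MeasureTheory Filter Topology Set SchwartzMap
open scoped ENNReal ContDiff FourierTransform
open Pool.Agent.Q76.HM

/-- multiplication by a nonzero real number -/
noncomputable def sc (c : ℝ) (hc : c ≠ 0) : ℝ ≃L[ℝ] ℝ :=
  (LinearEquiv.smulOfNeZero ℝ ℝ c hc).toContinuousLinearEquiv

theorem sc_apply (c : ℝ) (hc : c ≠ 0) (x : ℝ) : sc c hc x = c * x := rfl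

theorem hpi : (-(2 * Real.pi)⁻¹ : ℝ) ≠ 0 := by
  have := Real.pi_pos
  exact neg_ne_zero.2 (by positivity)

theorem gg_eq (f : 𝓢(ℝ, ℂ)) (σ : ℝ) : GG f σ = 𝓕 f (-(2 * Real.pi)⁻¹ * σ) := by
  have hp := Real.pi_pos
  rw [fourier_coe, Real.fourier_real_eq_integral_exp_smul]
  unfold GG
  congr 1
  funext v
  rw [smul_eq_mul, mul_comm]
  congr 2
  push_cast
  have h1 : (Real.pi : ℂ) ≠ 0 := by exact_mod_cast hp.ne'
  field_simp

/-- `GG f` as a Schwartz function -/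
noncomputable def GS (f : 𝓢(ℝ, ℂ)) : 𝓢(ℝ, ℂ) := compCLMOfContinuousLinearEquiv ℂ (sc _ hpi) (𝓕 f)

theorem GS_coe (f : 𝓢(ℝ, ℂ)) : GG f = ⇑(GS f) := by
  funext σ
  rw [gg_eq]
  rfl

theorem int_sq (f : 𝓢(ℝ, ℂ)) : ∫ σ, ‖GG f σ‖ ^ 2 = 2 * Real.pi * ∫ ξ, ‖f ξ‖ ^ 2 := by
  have hp := Real.pi_pos
  simp_rw [gg_eq]
  rw [Measure.integral_comp_mul_left (fun x => ‖𝓕 f x‖ ^ 2), integral_norm_sq_fourier, smul_eq_mul]
  congr 1
  rw [inv_neg, inv_inv, abs_neg, abs_of_pos (by positivity)]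

theorem pla' {p : ℝ} (hp : 2 < p) (f : 𝓢(ℝ, ℂ)) {M : ℝ} (hM : 0 ≤ M) (h : ∀ σ, ‖GG f σ‖ ≤ M) :
    Continuous (GG f) ∧ MemLp (GG f) (ENNReal.ofReal p) ∧
      eLpNorm (GG f) (ENNReal.ofReal p) volume ^ p ≤
        ENNReal.ofReal (M ^ (p - 2) * (2 * Real.pi * ∫ ξ, ‖f ξ‖ ^ 2)) := by
  have hp0 : (0 : ℝ) < p := by linarith
  have hmem : ∀ q : ℝ≥0∞, MemLp (GG f) q volume := by
    intro q
    rw [GS_coe]
    exact (GS f).memLp q
  refine ⟨?_, hmem _, ?_⟩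
  · rw [GS_coe]
    exact (GS f).continuous
  · have hq0 : ENNReal.ofReal p ≠ 0 := by
      rw [Ne, ENNReal.ofReal_eq_zero, not_le]
      exact hp0
    rw [eLpNorm_eq_lintegral_rpow_enorm_toReal hq0 ENNReal.ofReal_ne_top, ENNReal.toReal_ofReal hp0.le,
      ← ENNReal.rpow_mul, one_div, inv_mul_cancel₀ hp0.ne', ENNReal.rpow_one]
    have hint : Integrable (fun σ => M ^ (p - 2) * ‖GG f σ‖ ^ 2) volume := by
      refine Integrable.const_mul ?_ _
      have := (hmem (2 : ℕ)).integrable_norm_pow (by norm_num)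
      exact this
    have e : M ^ (p - 2) * (2 * Real.pi * ∫ ξ, ‖f ξ‖ ^ 2) = ∫ σ, M ^ (p - 2) * ‖GG f σ‖ ^ 2 := by
      rw [integral_const_mul, int_sq]
    rw [e, ofReal_integral_eq_lintegral_ofReal hint (Eventually.of_forall fun σ => by positivity)]
    refine lintegral_mono fun σ => ?_
    rw [← ofReal_norm_eq_enorm, ENNReal.ofReal_rpow_of_nonneg (norm_nonneg _) hp0.le]
    apply ENNReal.ofReal_le_ofReal
    have e2 : ‖GG f σ‖ ^ p = ‖GG f σ‖ ^ (p - 2) * ‖GG f σ‖ ^ 2 := by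
      rw [← Real.rpow_two, ← Real.rpow_add' (norm_nonneg _) (by linarith)]
      congr 1
      ring
    rw [e2]
    exact mul_le_mul_of_nonneg_right (Real.rpow_le_rpow (norm_nonneg _) (h σ) (by linarith)) (by positivity)

theorem pla : S_PLA := by
  intro p hp a ha hc M hM h
  exact pla' hp (hc.toSchwartzMap ha) hM h

/-- Fourier inversion -/
theorem gg_inv (G : 𝓢(ℝ, ℂ)) : ∃ a : 𝓢(ℝ, ℂ), ∀ σ, GG a σ = G σ := by
  have hp := Real.pi_pos
  have h2 : (2 * Real.pi : ℝ) ≠ 0 := by positivity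
  set G1 : 𝓢(ℝ, ℂ) := compCLMOfContinuousLinearEquiv ℂ (sc (2 * Real.pi) h2) G with hG1
  refine ⟨𝓕 G1, fun σ => ?_⟩
  rw [gg_eq]
  have h1 : 𝓕⁻ (𝓕 G1) = G1 := FourierTransform.fourierInv_fourier_eq G1
  have h3 : (𝓕⁻ (𝓕 G1)) ((2 * Real.pi)⁻¹ * σ) = 𝓕 (𝓕 G1) (-(2 * Real.pi)⁻¹ * σ) := by
    rw [fourierInv_apply_eq]
    show 𝓕 (𝓕 G1) (-((2 * Real.pi)⁻¹ * σ)) = _
    rw [neg_mul]
  rw [← h3, h1]
  show G (2 * Real.pi * ((2 * Real.pi)⁻¹ * σ)) = G σ
  rw [← mul_assoc, mul_inv_cancel₀ h2, one_mul]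

theorem exp_norm (ξ σ : ℝ) : ‖Complex.exp (Complex.I * ξ * σ)‖ = 1 := by
  have : Complex.I * ξ * σ = ((ξ * σ : ℝ) : ℂ) * Complex.I := by
    push_cast
    ring
  rw [this, Complex.norm_exp_ofReal_mul_I]

theorem gg_integrable (a : 𝓢(ℝ, ℂ)) (σ : ℝ) : Integrable fun ξ : ℝ => a ξ * Complex.exp (Complex.I * ξ * σ) := by
  refine (a.integrable (μ := volume)).norm.mono' ?_ ?_
  · exact (a.continuous.mul (by fun_prop)).aestronglyMeasurable
  · refine Eventually.of_forall fun ξ => ?_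
    rw [norm_mul, exp_norm, mul_one]

theorem gg_bound (a : 𝓢(ℝ, ℂ)) (σ : ℝ) : ‖GG a σ‖ ≤ ∫ ξ, ‖a ξ‖ := by
  unfold GG
  refine (norm_integral_le_integral_norm _).trans (le_of_eq ?_)
  congr 1
  funext ξ
  rw [norm_mul, exp_norm, mul_one]

theorem gdn : S_GDN := by
  intro p hp G hG hGc ε hε
  have hp0 : (0 : ℝ) < p := by linarith
  obtain ⟨a0, ha0⟩ := gg_inv (hGc.toSchwartzMap hG)
  have hGσ : ∀ σ, (hGc.toSchwartzMap hG) σ = G σ := fun _ => rfl
  let χ : ContDiffBump (0 : ℝ) := ⟨1, 2, one_pos, by norm_num⟩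
  have hn0 : ∀ n : ℕ, (0 : ℝ) < (n : ℝ) + 1 := fun n => by positivity
  set u : ℕ → ℝ → ℝ := fun n ξ => χ (ξ / ((n : ℝ) + 1)) with hu
  have hu1 : ∀ n ξ, 0 ≤ u n ξ ∧ u n ξ ≤ 1 := fun n ξ => ⟨χ.nonneg, χ.le_one⟩
  have husm : ∀ n, ContDiff ℝ ∞ (u n) := fun n => χ.contDiff.comp (contDiff_id.div_const _)
  set a : ℕ → ℝ → ℂ := fun n ξ => (u n ξ : ℂ) * a0 ξ with ha
  have hasm : ∀ n, ContDiff ℝ ∞ (a n) := fun n =>
    (Complex.ofRealCLM.contDiff.comp (husm n)).mul (a0.smooth ⊤)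
  have hac : ∀ n, HasCompactSupport (a n) := by
    intro n
    refine HasCompactSupport.of_support_subset_isCompact (isCompact_closedBall (0 : ℝ) (2 * ((n : ℝ) + 1))) ?_
    intro ξ hξ
    rw [Function.mem_support] at hξ
    have h1 : u n ξ ≠ 0 := by
      intro h
      apply hξ
      simp only [ha, h, Complex.ofReal_zero, zero_mul]
    have h2 : ξ / ((n : ℝ) + 1) ∈ Function.support χ := h1
    rw [χ.support_eq, Metric.mem_ball, dist_zero_right, norm_div, Real.norm_of_nonneg (hn0 n).le, div_lt_iff₀ (hn0 n)] at h2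
    rw [Metric.mem_closedBall, dist_zero_right]
    exact h2.le
  set d : ℕ → 𝓢(ℝ, ℂ) := fun n => a0 - (hac n).toSchwartzMap (hasm n) with hd
  have hdv : ∀ n ξ, d n ξ = ((1 - u n ξ : ℝ) : ℂ) * a0 ξ := by
    intro n ξ
    show a0 ξ - a n ξ = _
    simp only [ha]
    push_cast
    ring
  have hdn : ∀ n ξ, ‖d n ξ‖ ≤ ‖a0 ξ‖ := by
    intro n ξ
    rw [hdv, norm_mul, Complex.norm_real, Real.norm_of_nonneg (by linarith [(hu1 n ξ).2])]
    have := (hu1 n ξ).1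
    nlinarith [norm_nonneg (a0 ξ)]
  have hgd : ∀ n σ, GG (d n) σ = G σ - GG (a n) σ := by
    intro n σ
    rw [← hGσ, ← ha0]
    have hi2 : Integrable fun ξ : ℝ => a n ξ * Complex.exp (Complex.I * ξ * σ) :=
      gg_integrable ((hac n).toSchwartzMap (hasm n)) σ
    unfold GG
    rw [← integral_sub (gg_integrable a0 σ) hi2]
    congr 1
    funext ξ
    show (a0 ξ - a n ξ) * Complex.exp (Complex.I * ξ * σ) =
      a0 ξ * Complex.exp (Complex.I * ξ * σ) - a n ξ * Complex.exp (Complex.I * ξ * σ)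
    ring
  -- the `L ^ 1` norms tend to zero
  have hlim : Tendsto (fun n => ∫ ξ, ‖d n ξ‖) atTop (𝓝 0) := by
    have h0 : (0 : ℝ) = ∫ _ : ℝ, (0 : ℝ) := by simp
    rw [h0]
    refine tendsto_integral_of_dominated_convergence (fun ξ => ‖a0 ξ‖) (fun n => ?_) (a0.integrable (μ := volume)).norm
      (fun n => Eventually.of_forall fun ξ => ?_) (Eventually.of_forall fun ξ => ?_)
    · exact (d n).continuous.norm.aestronglyMeasurable
    · rw [norm_norm]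
      exact hdn n ξ
    · refine tendsto_const_nhds.congr' ?_
      obtain ⟨m, hm⟩ := exists_nat_ge |ξ|
      filter_upwards [eventually_ge_atTop m] with n hn
      have h1 : u n ξ = 1 := by
        apply χ.one_of_mem_closedBall
        rw [Metric.mem_closedBall, dist_zero_right, norm_div, Real.norm_of_nonneg (hn0 n).le, Real.norm_eq_abs,
          div_le_iff₀ (hn0 n)]
        have : (m : ℝ) ≤ n := by exact_mod_cast hn
        show |ξ| ≤ 1 * ((n : ℝ) + 1)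
        linarith
      rw [hdv, h1]
      simp
  have hlim2 : Tendsto (fun n => (∫ ξ, ‖d n ξ‖) ^ (p - 2) * (2 * Real.pi * ∫ ξ, ‖a0 ξ‖ ^ 2)) atTop (𝓝 0) := by
    have h1 : Tendsto (fun n => (∫ ξ, ‖d n ξ‖) ^ (p - 2)) atTop (𝓝 (0 ^ (p - 2))) :=
      hlim.rpow_const (Or.inr (by linarith))
    rw [Real.zero_rpow (by linarith)] at h1
    have := h1.mul_const (2 * Real.pi * ∫ ξ, ‖a0 ξ‖ ^ 2)
    rwa [zero_mul] at this
  obtain ⟨n, hn⟩ := (hlim2.eventually (gt_mem_nhds (show (0 : ℝ) < ε ^ p by positivity))).exists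
  refine ⟨a n, hasm n, hac n, ?_⟩
  have e1 : (fun σ => G σ - GG (a n) σ) = GG (d n) := by
    funext σ
    rw [hgd]
  rw [e1]
  have hK : 0 ≤ ∫ ξ, ‖d n ξ‖ := integral_nonneg fun ξ => norm_nonneg _
  have h1 := (pla' hp (d n) hK (gg_bound (d n))).2.2
  have h2 : ∫ ξ, ‖d n ξ‖ ^ 2 ≤ ∫ ξ, ‖a0 ξ‖ ^ 2 := by
    refine integral_mono ?_ ?_ fun ξ => ?_
    · exact ((d n).memLp (2 : ℕ) volume).integrable_norm_pow (by norm_num)
    · exact (a0.memLp (2 : ℕ) volume).integrable_norm_pow (by norm_num)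
    · exact pow_le_pow_left₀ (norm_nonneg _) (hdn n ξ) 2
  have h3 : eLpNorm (GG (d n)) (ENNReal.ofReal p) volume ^ p ≤ ENNReal.ofReal ε ^ p := by
    rw [ENNReal.ofReal_rpow_of_pos hε]
    refine h1.trans (ENNReal.ofReal_le_ofReal ?_)
    refine le_trans ?_ hn.le
    apply mul_le_mul_of_nonneg_left _ (Real.rpow_nonneg hK _)
    apply mul_le_mul_of_nonneg_left h2
    have := Real.pi_pos
    positivity
  exact (ENNReal.rpow_le_rpow_iff hp0).1 h3

theorem gdn_of (_ : S_PLA) : S_GDN := gdn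

end Pool.Agent.Q176.HM
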