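import Pool.Agent.Q75.HM.Stm

set_option autoImplicit false

namespace Pool.Agent.Q176.HM

open Complex Set Metric Filter Topology
open Pool.Agent.Q75.HM

lemma sub_re_im (z : ℂ) (x : ℝ) : (z - (x : ℂ)).re = z.re - x ∧ (z - (x : ℂ)).im = z.im := by
  simp

lemma mem_A {G : Set ℂ} {t τ c : ℝ} (hG : ∀ z ∈ G, z.re < t - τ) (hτ : 0 < τ) {z : ℂ}
    (h : z ∈ Wd (G ∪ HS t c) t) : |z.im| < c ∨ z ∈ G ∨ rf t z ∈ G := by
  rcases h with (⟨_, h⟩ | ⟨_, h⟩) | ⟨y, hy, h⟩
  · rcases h with h | h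
    · exact Or.inr (Or.inl h)
    · exact Or.inl h.2
  · rcases h with h | h
    · exact Or.inr (Or.inr h)
    · exact Or.inl h.2
  · have hw : (⟨t - τ / 2, z.im⟩ : ℂ) ∈ HS t y := ⟨by show t - τ / 2 < t; linarith, hy⟩
    rcases h hw with h1 | h1
    · have := hG _ h1
      have h2 : t - τ / 2 < t - τ := this
      linarith
    · exact Or.inl h1.2

lemma mem_U {G : Set ℂ} {t τ c : ℝ} (hG : ∀ z ∈ G, z.re < t - τ)
    (hH : HS (t - τ) c ⊆ G) {z : ℂ} (h : |z.im| < c ∨ z ∈ G ∨ rf (t - τ) z ∈ G) : z ∈ Wd G (t - τ) := by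
  rcases h with h | h | h
  · exact Or.inr ⟨c, h, hH⟩
  · exact Or.inl (Or.inl ⟨hG z h, h⟩)
  · refine Or.inl (Or.inr ⟨?_, h⟩)
    have h1 : 2 * (t - τ) - z.re < t - τ := hG _ h
    linarith

/-- Job WI. -/
theorem t_WI : S_WI := by
  intro G t τ c hL hG hτ hc hH
  have hLD := hL.2
  refine ⟨fun z hz => ?_, fun z hz => ?_, fun z hz => ?_⟩
  · obtain ⟨h1, h2⟩ := sub_re_im z (2 * τ)
    refine mem_U hG hH ?_
    rcases mem_A hG hτ hz with h | h | h
    · exact Or.inl (by rw [h2]; exact h)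
    · refine Or.inr (Or.inl (hLD z h _ ?_ ?_))
      · rw [h1]; linarith
      · rw [h2]
    · refine Or.inr (Or.inr ?_)
      have e : rf (t - τ) (z - ((2 * τ : ℝ) : ℂ)) = rf t z := by
        unfold rf
        rw [h1, h2]
        congr 1
        ring
      rw [e]
      exact h
  · refine mem_U hG hH ?_
    rcases mem_A hG hτ hz with h | h | h
    · exact Or.inl h
    · exact Or.inr (Or.inl h)
    · refine Or.inr (Or.inr (hLD _ h _ ?_ (le_refl _)))
      show 2 * (t - τ) - (z - ((2 * τ : ℝ) : ℂ)).re ≤ 2 * t - (z - ((2 * τ : ℝ) : ℂ)).re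
      linarith
  · obtain ⟨h1, h2⟩ := sub_re_im z (2 * τ)
    obtain ⟨hz1, hz2⟩ := hz
    have hA := mem_A hG hτ hz1
    have hB := mem_A hG hτ hz2
    rcases hA with h | h | h
    · exact Or.inr ⟨c, h, fun w hw => Or.inr hw⟩
    · refine Or.inl (Or.inl ⟨?_, Or.inl (Or.inl h)⟩)
      have := hG z h
      linarith
    · rcases hB with h3 | h3 | h3
      · rw [h2] at h3
        exact Or.inr ⟨c, h3, fun w hw => Or.inr hw⟩
      · exfalso
        have h4 : 2 * t - z.re < t - τ := hG _ h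
        have h5 := hG _ h3
        rw [h1] at h5
        linarith
      · have e : rf t (z - ((2 * τ : ℝ) : ℂ)) = rf (t + τ) z := by
          unfold rf
          rw [h1, h2]
          congr 1
          ring
        rw [e] at h3
        refine Or.inl (Or.inr ⟨?_, Or.inl (Or.inl h3)⟩)
        have h5 : 2 * (t + τ) - z.re < t - τ := hG _ h3
        linarith

end Pool.Agent.Q176.HM
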